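import Mathlib
import Pool.Agent.Helper22.OracleTools

set_option autoImplicit false

/-!
# Simulation of a procedure whose oracle is the join of an oracle and a polynomial time set
-/

namespace Pool.Agent.Helper22

open Turing Function N487b59b3 N68a2faeb N793a5b8e

section

variable {α β γ δ : Type} [N487b59b3 α] [N487b59b3 β] [N487b59b3 γ] [N487b59b3 δ]

theorem foldl_cons_eq (l a : List β) : l.foldl (fun acc b => b :: acc) a = l.reverse ++ a := by
  induction l generalizing a with
  | nil => rfl
  | cons b l ih => rw [List.foldl_cons, ih, List.reverse_cons, List.append_assoc]; rfl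

theorem sz_reverse (l : List β) : sz l.reverse = sz l := by
  induction l with
  | nil => rfl
  | cons b l ih => rw [List.reverse_cons, sz_append, ih, sz_cons, sz_cons]; simp [Nat.add_comm]

@[fun_prop]
theorem FP.reverse [Inhabited β] {f : α → List β} (hf : FP f) : FP fun a => (f a).reverse := by
  have h : FP fun p : List β × List β => p.1.foldl (fun acc b => b :: acc) p.2 := by
    refine FP.foldl (g := fun (acc : List β) (b : β) => b :: acc) (by fun_prop)
      (B := fun n => n) (by fun_prop) ?_
    intro l a
    rw [foldl_cons_eq, sz_append, sz_reverse]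
  have h1 := h.comp (hf.pair (FP.const ([] : List β)))
  simpa only [foldl_cons_eq, List.append_nil] using h1

/-- the answer of the joined oracle to the query `q`, given the answer `b` of the first oracle to
the tail of `q` -/
def jans (orc : γ × List Bool → Bool) (c : γ) (q : List Bool) (b : Bool) : Bool :=
  !q.isEmpty && ((q.headD false && orc (c, q.tail)) || (!q.headD false && b))

/-- `J` is the join of `A` and `B` -/
def IsJoin (J A B : List Bool → Bool) : Prop :=
  J [] = false ∧ (∀ q, J (false :: q) = A q) ∧ ∀ q, J (true :: q) = B q

omit [N487b59b3 γ] in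
theorem IsJoin.eq_jans {J A : List Bool → Bool} {orc : γ × List Bool → Bool} {c : γ}
    (h : IsJoin J A fun q => orc (c, q)) (q : List Bool) : J q = jans orc c q (A q.tail) := by
  rcases q with _ | ⟨b, q⟩
  · simp [jans, h.1]
  · cases b
    · simp [jans, h.2.1]
    · simp [jans, h.2.2]

/-- one step of the reconstruction of the answers of the joined oracle -/
def recStep (M : OracleProc α β) (orc : γ × List Bool → Bool) (s : (γ × α) × List Bool)
    (b : Bool) : (γ × α) × List Bool :=
  (s.1, jans orc s.1.1 (M.query (s.1.2, s.2)) b :: s.2)

/-- the answers of the joined oracle, from the answers of the first oracle -/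
def recon (M : OracleProc α β) (orc : γ × List Bool → Bool) (p : (γ × α) × List Bool) :
    List Bool :=
  (p.2.reverse.foldl (recStep M orc) (p.1, [])).2

omit [N487b59b3 γ] in
theorem foldl_recStep_fst (M : OracleProc α β) (orc : γ × List Bool → Bool) (l : List Bool)
    (s : (γ × α) × List Bool) : (l.foldl (recStep M orc) s).1 = s.1 ∧
      (l.foldl (recStep M orc) s).2.length = l.length + s.2.length := by
  induction l generalizing s with
  | nil => simp
  | cons b l ih =>
    rw [List.foldl_cons]
    refine ⟨(ih _).1, ?_⟩
    rw [(ih _).2]
    simp only [recStep, List.length_cons]; omega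

theorem FP.jans' {orc : γ × List Bool → Bool} (ho : FP orc) {f : α → γ} {g : α → List Bool}
    {h : α → Bool} (hf : FP f) (hg : FP g) (hh : FP h) :
    FP fun a => jans orc (f a) (g a) (h a) := by
  have h1 : FP fun a => orc (f a, (g a).tail) := ho.comp (by fun_prop)
  have h2 : FP fun a => (g a).headD false := FP.headD hg _
  unfold jans
  fun_prop

theorem FP.recon' (M : OracleProc α β) {orc : γ × List Bool → Bool} (ho : FP orc) :
    FP (recon M orc) := by
  have hq := (isPolyTime_iff _).1 M.query_poly
  have h : FP fun p : List Bool × ((γ × α) × List Bool) => p.1.foldl (recStep M orc) p.2 := by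
    refine FP.foldl (g := recStep M orc) ?_ (B := fun n => 4 * n) (by fun_prop) ?_
    · have h1 : FP fun p : ((γ × α) × List Bool) × Bool => M.query (p.1.1.2, p.1.2) :=
        hq.comp (by fun_prop)
      have h2 := FP.jans' (α := ((γ × α) × List Bool) × Bool) ho (f := fun p => p.1.1.1)
        (g := fun p => M.query (p.1.1.2, p.1.2)) (h := fun p => p.2) (by fun_prop) h1
        (by fun_prop)
      unfold recStep
      fun_prop
    · intro l a
      have h1 := foldl_recStep_fst M orc l a
      rcases hr : l.foldl (recStep M orc) a with ⟨c, d⟩
      rw [hr] at h1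
      obtain ⟨h1, h2⟩ := h1
      obtain ⟨a1, a2⟩ := a
      simp only [sz_pair, sz_bits] at *
      subst h1
      omega
  have h1 : FP fun p : (γ × α) × List Bool => (p.2.reverse, (p.1, ([] : List Bool))) := by
    fun_prop
  exact (h.comp h1).snd'

/-- The simulation of `M` with the join of an oracle and the polynomial time oracle `orc (c, ·)`:
one query to the first oracle for every query of `M`. -/
def simJoin (M : OracleProc α β) (orc : γ × List Bool → Bool) (ho : FP orc) :
    OracleProc (γ × α) β where
  clock := fun p => M.clock p.2
  query := fun p => (M.query (p.1.2, recon M orc p)).tail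
  out := fun p => M.out (p.1.2, recon M orc p)
  clock_poly := (isPolyTime_iff _).2 (((isPolyTime_iff _).1 M.clock_poly).comp FP.snd)
  query_poly := (isPolyTime_iff _).2 (by
    have h1 := FP.recon' M ho
    have h2 : FP fun p : (γ × α) × List Bool => M.query (p.1.2, recon M orc p) :=
      ((isPolyTime_iff _).1 M.query_poly).comp (FP.pair (by fun_prop) h1)
    fun_prop)
  out_poly := (isPolyTime_iff _).2 (by
    have h1 := FP.recon' M ho
    exact ((isPolyTime_iff _).1 M.out_poly).comp (FP.pair (by fun_prop) h1))

theorem simJoin_recon (M : OracleProc α β) {orc : γ × List Bool → Bool} (ho : FP orc)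
    {J A : Oracle} (p : γ × α) (hJ : IsJoin J A fun q => orc (p.1, q)) (n : ℕ) :
    recon M orc (p, (simJoin M orc ho).answers A p n) = M.answers J p.2 n := by
  induction n with
  | zero => rfl
  | succ n ih =>
    rw [OracleProc.answers, OracleProc.answers, hJ.eq_jans, ← ih]
    simp only [recon, List.reverse_cons, List.foldl_append, List.foldl_cons, List.foldl_nil]
    rw [recStep, (foldl_recStep_fst _ _ _ _).1]
    rfl

theorem simJoin_run (M : OracleProc α β) {orc : γ × List Bool → Bool} (ho : FP orc)
    {J A : Oracle} (p : γ × α) (hJ : IsJoin J A fun q => orc (p.1, q)) :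
    (simJoin M orc ho).run A p = M.run J p.2 := by
  show M.out (p.2, recon M orc (p, (simJoin M orc ho).answers A p (M.clock p.2).length)) = _
  rw [simJoin_recon M ho p hJ]
  rfl

end

end Pool.Agent.Helper22
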