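import Mathlib
import Pool.Agent.Helper20.Cons.Pos

set_option autoImplicit false

/-!
# The universal language relative to an oracle with the valid codes in its tally part
-/

namespace Pool.Agent.Helper22.ConsUniv

open Turing Function N487b59b3 N68a2faeb N793a5b8e Pool.Agent.Helper22
open Pool.Agent.Helper20.Cons (join cAns cNum cOut cRun cAcc rho pos exists_code ce)

/-- the code in the instance -/
def cc (z : List Bool) : List Bool := enumU (cf z)

/-- the word in the instance -/
def xx (z : List Bool) : List Bool := cf (cs z)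

/-- the exponent in the instance, as a word -/
def ee (z : List Bool) : List Bool := cs (cs (cc z))

/-- the bound -/
def rr (z : List Bool) : List Bool := pw (xx z) (ee z) (cs (cs z)) ++ un (ee z).length

/-- the clock of the instance is long enough -/
def pok (z : List Bool) : Bool := padok (ee z) (xx z) (cs (cs z))

/-- the code of the verifier -/
def vj (b : Bool) (z : List Bool) : List Bool := if b then cf (cc z) else cf (cs (cc z))

theorem FP.cc' : FP cc := by unfold cc; fun_prop

theorem FP.xx' : FP xx := by unfold xx; fun_prop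

theorem FP.ee' : FP ee := by
  have := FP.cc'
  unfold ee; fun_prop

theorem FP.rr' : FP rr := by
  have := FP.ee'
  have := FP.xx'
  unfold rr; fun_prop

theorem FP.pok' : FP pok := by
  have := FP.ee'
  have := FP.xx'
  unfold pok; fun_prop

theorem FP.vj' (b : Bool) : FP (vj b) := by
  have := FP.cc'
  unfold vj
  cases b
  · simp only [Bool.false_eq_true, if_false]; fun_prop
  · simp only [if_true]; fun_prop

theorem FP.take' {α : Type} [N487b59b3 α] {f g : α → List Bool} (hf : FP f) (hg : FP g) :
    FP fun a => (f a).take (g a).length := FP.take hf hg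

/-- the query for the bit -/
def bitq (z : List Bool) : List Bool :=
  true :: (un (((cf z ++ (rr z ++ xx z)).length) * ((cf z ++ (rr z ++ xx z)).length)) ++
    un (cf z).length)

theorem FP.bitq' : FP bitq := by
  have := FP.rr'
  have := FP.xx'
  have h : FP fun z : List Bool => cf z ++ (rr z ++ xx z) := by fun_prop
  have h2 := FP.unMul h h
  unfold bitq
  fun_prop

/-- the number of coded queries, as a word -/
def nu (b : Bool) (p : List Bool × List Bool) : List Bool :=
  cNum (vj b p.1) (rr p.1) (cd (xx p.1) p.2)

theorem FP.nu' (b : Bool) : FP (nu b) := by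
  have h1 : FP fun p : List Bool × List Bool => vj b p.1 := (FP.vj' b).comp FP.fst
  have h2 : FP fun p : List Bool × List Bool => rr p.1 := FP.rr'.comp FP.fst
  have h3 : FP fun p : List Bool × List Bool => xx p.1 := FP.xx'.comp FP.fst
  unfold nu cNum
  exact FP.take (by fun_prop) h2

/-- the next query -/
def uq (b : Bool) (p : (List Bool × List Bool) × List Bool) : List Bool :=
  if decide ((nu b p.1).length ≤ p.2.length) then bitq p.1.1 else
    (fjt (cf (cs (vj b p.1.1))) (cd (cd (xx p.1.1) p.1.2) p.2) (rr p.1.1)).take (rr p.1.1).length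

theorem FP.uq' (b : Bool) : FP (uq b) := by
  have h1 : FP fun p : (List Bool × List Bool) × List Bool => vj b p.1.1 :=
    (FP.vj' b).comp (by fun_prop)
  have h2 : FP fun p : (List Bool × List Bool) × List Bool => rr p.1.1 :=
    FP.rr'.comp (by fun_prop)
  have h3 : FP fun p : (List Bool × List Bool) × List Bool => xx p.1.1 :=
    FP.xx'.comp (by fun_prop)
  have h4 : FP fun p : (List Bool × List Bool) × List Bool => nu b p.1 :=
    (FP.nu' b).comp (by fun_prop)
  have h5 : FP fun p : (List Bool × List Bool) × List Bool => bitq p.1.1 :=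
    FP.bitq'.comp (by fun_prop)
  have h6 : FP fun p : (List Bool × List Bool) × List Bool =>
    (fjt (cf (cs (vj b p.1.1))) (cd (cd (xx p.1.1) p.1.2) p.2) (rr p.1.1)).take
      (rr p.1.1).length := FP.take (by fun_prop) h2
  unfold uq
  fun_prop

/-- the output of the coded verifier, with the bound for the witness -/
def uo (b : Bool) (p : (List Bool × List Bool) × List Bool) : Bool :=
  decide (p.1.2.length ≤ (rr p.1.1).length) &&
    cOut (vj b p.1.1) (rr p.1.1) (cd (xx p.1.1) p.1.2) p.2.tail

theorem FP.uo' (b : Bool) : FP (uo b) := by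
  have h1 : FP fun p : (List Bool × List Bool) × List Bool => vj b p.1.1 :=
    (FP.vj' b).comp (by fun_prop)
  have h2 : FP fun p : (List Bool × List Bool) × List Bool => rr p.1.1 :=
    FP.rr'.comp (by fun_prop)
  have h3 : FP fun p : (List Bool × List Bool) × List Bool => xx p.1.1 :=
    FP.xx'.comp (by fun_prop)
  have h4 : FP fun p : (List Bool × List Bool) × List Bool =>
      (fjt (cs (cs (vj b p.1.1))) (cd (cd (xx p.1.1) p.1.2) p.2.tail) (rr p.1.1)).headD false :=
    FP.headD (by fun_prop) _
  unfold uo cOut
  fun_prop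

/-- the verifier for positive answers -/
def yM : OracleProc (List Bool × List Bool) Bool where
  clock := fun p => true :: nu true p
  query := uq true
  out := fun p => p.1.1.isEmpty || (pok p.1.1 && (p.2.headD false && uo true p))
  clock_poly := (isPolyTime_iff _).2 (by
    have := FP.nu' true
    fun_prop)
  query_poly := (isPolyTime_iff _).2 (FP.uq' true)
  out_poly := (isPolyTime_iff _).2 (by
    have h1 : FP fun p : (List Bool × List Bool) × List Bool => pok p.1.1 :=
      FP.pok'.comp (by fun_prop)
    have h2 : FP fun p : (List Bool × List Bool) × List Bool => p.2.headD false :=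
      FP.headD FP.snd _
    have h3 := FP.uo' true
    fun_prop)

/-- the verifier for negative answers -/
def nM : OracleProc (List Bool × List Bool) Bool where
  clock := fun p => true :: nu false p
  query := uq false
  out := fun p => !p.1.1.isEmpty && (!pok p.1.1 || (!p.2.headD false || uo false p))
  clock_poly := (isPolyTime_iff _).2 (by
    have := FP.nu' false
    fun_prop)
  query_poly := (isPolyTime_iff _).2 (FP.uq' false)
  out_poly := (isPolyTime_iff _).2 (by
    have h1 : FP fun p : (List Bool × List Bool) × List Bool => pok p.1.1 :=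
      FP.pok'.comp (by fun_prop)
    have h2 : FP fun p : (List Bool × List Bool) × List Bool => p.2.headD false :=
      FP.headD FP.snd _
    have h3 := FP.uo' false
    fun_prop)

theorem cAns_length (j r y : List Bool) (X : Oracle) (k : ℕ) : (cAns j r y X k).length = k := by
  induction k with
  | zero => rfl
  | succ k ih => rw [cAns, List.length_cons, ih]

theorem answers_eq (b : Bool) {M : OracleProc (List Bool × List Bool) Bool}
    (hM : M.query = uq b) (X : Oracle) (z w : List Bool) (k : ℕ) (hk : k ≤ (nu b (z, w)).length) :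
    M.answers X (z, w) k = cAns (vj b z) (rr z) (cd (xx z) w) X k := by
  induction k with
  | zero => rfl
  | succ k ih =>
    have ih' := ih (by omega)
    rw [OracleProc.answers, cAns, ih', hM]
    congr 2
    rw [uq, cAns_length]
    have h : decide ((nu b (z, w)).length ≤ k) = false := by
      rw [decide_eq_false_iff_not]; omega
    simp only [h, Bool.false_eq_true, if_false]

theorem run_eq (b : Bool) {M : OracleProc (List Bool × List Bool) Bool}
    (hM : M.query = uq b) (hc : ∀ p, M.clock p = true :: nu b p) (X : Oracle) (z w : List Bool) :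
    M.run X (z, w) = M.out ((z, w), X (bitq z) ::
      cAns (vj b z) (rr z) (cd (xx z) w) X (nu b (z, w)).length) := by
  rw [OracleProc.run, hc, List.length_cons, OracleProc.answers, answers_eq b hM X z w _ le_rfl, hM]
  congr 3
  rw [uq, cAns_length]
  simp

theorem uo_eq (b : Bool) (X : Oracle) (z w : List Bool) (a : Bool) :
    uo b ((z, w), a :: cAns (vj b z) (rr z) (cd (xx z) w) X (nu b (z, w)).length) = true ↔
      w.length ≤ (rr z).length ∧ cRun (vj b z) (rr z) (cd (xx z) w) X = true := by
  rw [uo, Bool.and_eq_true, decide_eq_true_eq]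
  rfl

theorem yM_run (X : Oracle) (z w : List Bool) : yM.run X (z, w) = true ↔
    z = [] ∨ (pok z = true ∧ (X (bitq z) = true ∧
      (w.length ≤ (rr z).length ∧ cRun (vj true z) (rr z) (cd (xx z) w) X = true))) := by
  rw [run_eq true (M := yM) rfl (fun _ => rfl), ← uo_eq true X z w (X (bitq z))]
  simp only [yM, Bool.or_eq_true, Bool.and_eq_true, List.isEmpty_iff, List.headD_cons]

theorem nM_run (X : Oracle) (z w : List Bool) : nM.run X (z, w) = true ↔
    z ≠ [] ∧ (¬ pok z = true ∨ (¬ X (bitq z) = true ∨
      (w.length ≤ (rr z).length ∧ cRun (vj false z) (rr z) (cd (xx z) w) X = true))) := by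
  rw [run_eq false (M := nM) rfl (fun _ => rfl), ← uo_eq false X z w (X (bitq z))]
  simp only [nM, Bool.or_eq_true, Bool.and_eq_true, List.headD_cons, Bool.not_eq_true',
    Bool.not_eq_true, List.isEmpty_eq_false_iff, ne_eq]

theorem cs_cs_length (z : List Bool) : (cs (cs z)).length ≤ z.length :=
  (cs_length _).trans (cs_length _)

theorem rr_eq {z : List Bool} (h : pok z = true) :
    rr z = un (rho (cf z).length (xx z).length) := by
  have h1 := (padok_iff _ _ _).1 h
  rw [rr, pw_eq, ← un_add, rho, ce, ← enumU_eq]
  congr 1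
  have h2 : (cs (cs (enumU (cf z)))).length = (ee z).length := rfl
  rw [h2]
  omega

theorem bitq_eq {z : List Bool} (h : pok z = true) :
    bitq z = true :: un (pos (cf z).length (xx z).length) := by
  rw [bitq, ← un_add, List.length_append, List.length_append, rr_eq h, un_length, pos, sq]

theorem rr_length_le {z : List Bool} (h : pok z = true) : (rr z).length ≤ z.length := by
  have h1 := (padok_iff _ _ _).1 h
  have h2 := cs_cs_length z
  rw [rr, pw_eq, List.length_append, un_length, un_length]
  omega

theorem yAcc (X : Oracle) (z : List Bool) : Accepts yM Polynomial.X X z ↔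
    z = [] ∨ (pok z = true ∧ X (bitq z) = true ∧ cAcc (vj true z) (rr z) X (xx z)) := by
  simp only [Accepts, yM_run, Polynomial.eval_X]
  constructor
  · rintro ⟨w, _, h | ⟨h1, h2, h3⟩⟩
    · exact Or.inl h
    · exact Or.inr ⟨h1, h2, w, h3⟩
  · rintro (h | ⟨h1, h2, w, h3, h4⟩)
    · exact ⟨[], Nat.zero_le _, Or.inl h⟩
    · exact ⟨w, h3.trans (rr_length_le h1), Or.inr ⟨h1, h2, h3, h4⟩⟩

theorem nAcc (X : Oracle) (z : List Bool) : Accepts nM Polynomial.X X z ↔
    z ≠ [] ∧ (¬ pok z = true ∨ ¬ X (bitq z) = true ∨ cAcc (vj false z) (rr z) X (xx z)) := by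
  simp only [Accepts, nM_run, Polynomial.eval_X]
  constructor
  · rintro ⟨w, _, h0, h1 | h1 | h1⟩
    · exact ⟨h0, Or.inl h1⟩
    · exact ⟨h0, Or.inr (Or.inl h1)⟩
    · exact ⟨h0, Or.inr (Or.inr ⟨w, h1⟩)⟩
  · rintro ⟨h0, h1 | h1 | ⟨w, h1, h2⟩⟩
    · exact ⟨[], Nat.zero_le _, h0, Or.inl h1⟩
    · exact ⟨[], Nat.zero_le _, h0, Or.inr (Or.inl h1)⟩
    · by_cases h3 : pok z = true
      · exact ⟨w, h1.trans (rr_length_le h3), h0, Or.inr (Or.inr ⟨h1, h2⟩)⟩
      · exact ⟨[], Nat.zero_le _, h0, Or.inl h3⟩

/-- The universal language is complete as soon as the tally part holds the valid codes. -/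
theorem univ_complete (A T : Oracle) (l : ℕ → ℕ)
    (h : ∀ i n, T (un (pos i n)) = true ↔
      l i ≤ n ∧ ∀ n', l i ≤ n' → n' ≤ n → Pool.Agent.Helper20.Cons.Good (join A T) i n') :
    ∃ L ∈ NPo (join A T) ∩ coNPo (join A T),
      ∀ L' ∈ NPo (join A T) ∩ coNPo (join A T), N793a5b8e.ManyOneReducible L' L := by
  classical
  set X : Oracle := join A T with hX
  have hbit : ∀ z, pok z = true → (X (bitq z) = true ↔ T (un (pos (cf z).length (xx z).length))
      = true) := by
    intro z hz
    rw [bitq_eq hz, hX]
    rfl
  -- the two verifiers are complementary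
  have hcompl : ∀ z, Accepts yM Polynomial.X X z ↔ ¬ Accepts nM Polynomial.X X z := by
    intro z
    rw [yAcc, nAcc]
    by_cases h0 : z = []
    · simp [h0]
    by_cases h1 : pok z = true
    · by_cases h2 : X (bitq z) = true
      · have h3 := (h _ _).1 ((hbit z h1).1 h2)
        have h4 := h3.2 _ h3.1 le_rfl
        have h5 := h4 (xx z) rfl
        rw [← enumU_eq, ← rr_eq h1] at h5
        have h6 : cAcc (vj true z) (rr z) X (xx z) ↔ ¬ cAcc (vj false z) (rr z) X (xx z) := h5
        simp only [h0, h1, h2, not_true_eq_false, false_or, true_and, ne_eq, not_false_eq_true]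
        exact h6
      · simp [h0, h2]
    · simp [h0, h1]
  refine ⟨fun z => decide (Accepts yM Polynomial.X X z), ⟨⟨Polynomial.X, yM, fun z => by simp⟩,
    ⟨Polynomial.X, nM, fun z => ?_⟩⟩, fun L' hL' => ?_⟩
  · rw [compl_true, decide_eq_true_eq, hcompl z, not_not]
  -- completeness
  obtain ⟨⟨p₁, M₁, h₁⟩, ⟨p₀, M₀, h₀⟩⟩ := hL'
  obtain ⟨j₁, e₁, hj₁⟩ := exists_code M₁ p₁
  obtain ⟨j₀, e₀, hj₀⟩ := exists_code M₀ p₀
  set e := e₁ + e₀ with he
  obtain ⟨i, hi⟩ := enum_surj (cd j₁ (cd j₀ (un e)))
  have hce : ce (enum i) = e := by rw [ce, hi, cs_cd, cs_cd, un_length]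
  have hrho : ∀ n, rho i n = n ^ e + e := fun n => by rw [rho, hce]
  have hA1 : ∀ x : List Bool, cAcc j₁ (un (rho i x.length)) X x ↔ L' x = true := fun x => by
    rw [hrho, hj₁ e (by omega), h₁]
  have hA0 : ∀ x : List Bool, cAcc j₀ (un (rho i x.length)) X x ↔ ¬ L' x = true := fun x => by
    rw [hrho, hj₀ e (by omega), ← h₀, compl_true]
  have hgood : ∀ n, Pool.Agent.Helper20.Cons.Good X i n := by
    intro n x hx
    rw [hi, cf_cd, cs_cd, cf_cd, ← hx, hA1, hA0, not_not]
  have hT : ∀ n, T (un (pos i n)) = true ↔ l i ≤ n := fun n => by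
    rw [h]
    exact ⟨fun h' => h'.1, fun h' => ⟨h', fun n' _ _ => hgood n'⟩⟩
  -- the reduction
  have hfin : {x : List Bool | x.length ≤ l i ∧ L' x = true}.Finite :=
    (List.finite_length_le Bool (l i)).subset fun x hx => hx.1
  set S : List (List Bool) := hfin.toFinset.toList with hS
  have hmem : ∀ x : List Bool, x.length ≤ l i → (wmem S x = true ↔ L' x = true) := fun x hx => by
    rw [wmem_iff, hS, Finset.mem_toList, Set.Finite.mem_toFinset, Set.mem_ofPred_eq]
    exact ⟨fun h' => h'.2, fun h' => ⟨hx, h'⟩⟩
  let P : Polynomial ℕ := Polynomial.X ^ e + Polynomial.C e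
  have hP : ∀ n, P.eval n = n ^ e + e := fun n => by simp [P]
  let f : List Bool → List Bool := fun x =>
    if decide (x.length ≤ (un (l i)).length) then
      (if wmem S x then [] else cd [] (cd [true] []))
    else cd (un i) (cd x (un (P.eval x.length)))
  have hf : FP f := by
    have h1 : FP fun x : List Bool => un (P.eval x.length) := FP.un_poly (by fun_prop) _
    show FP fun x : List Bool => if decide (x.length ≤ (un (l i)).length) then
      (if wmem S x then [] else cd [] (cd [true] []))
    else cd (un i) (cd x (un (P.eval x.length)))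
    fun_prop
  refine ⟨f, (isPolyTime_iff _).2 hf, fun x => ?_⟩
  rw [Bool.eq_iff_iff, decide_eq_true_eq, yAcc]
  by_cases hx : x.length ≤ l i
  · have hd : decide (x.length ≤ (un (l i)).length) = true := by
      rw [decide_eq_true_eq, un_length]; exact hx
    by_cases hw : wmem S x = true
    · have hfx : f x = [] := by simp only [f, hd, hw, if_true]
      rw [hfx]
      exact ⟨fun _ => Or.inl rfl, fun _ => (hmem x hx).1 hw⟩
    · have hfx : f x = cd [] (cd [true] []) := by
        simp only [f, hd, if_true, hw, if_false, Bool.false_eq_true]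
      rw [hfx]
      constructor
      · intro h'
        exact absurd ((hmem x hx).2 h') hw
      · rintro (h' | ⟨h', _⟩)
        · simp [cd, delimit] at h'
        · have h2 := (padok_iff _ _ _).1 h'
          rw [show xx (cd [] (cd [true] [])) = [true] by rw [xx, cs_cd, cf_cd], cs_cd, cs_cd] at h2
          simp at h2
  · have hd : decide (x.length ≤ (un (l i)).length) = false := by
      rw [decide_eq_false_iff_not, un_length]; exact hx
    have hfx : f x = cd (un i) (cd x (un (x.length ^ e + e))) := by
      simp only [f, hd, Bool.false_eq_true, if_false, hP]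
    rw [hfx]
    set z := cd (un i) (cd x (un (x.length ^ e + e))) with hz
    have hzx : xx z = x := by rw [xx, hz, cs_cd, cf_cd]
    have hzc : cf z = un i := by rw [hz, cf_cd]
    have hcc : cc z = cd j₁ (cd j₀ (un e)) := by rw [cc, hzc, enumU_eq, un_length, hi]
    have hee : ee z = un e := by rw [ee, hcc, cs_cd, cs_cd]
    have hpok : pok z = true := by
      rw [pok, padok_iff, hzx, hee, hz, cs_cd, cs_cd, un_length, un_length]
    have hzr : rr z = un (rho i x.length) := by rw [rr_eq hpok, hzc, hzx, un_length]
    have hvj : vj true z = j₁ := by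
      rw [vj, if_pos rfl, hcc, cf_cd]
    have hne : z ≠ [] := by
      intro h0
      have h1 := congrArg List.length h0
      rw [hz, cd_length] at h1
      simp at h1
    have hb : X (bitq z) = true := by
      rw [hbit z hpok, hzc, hzx, un_length, hT]
      omega
    rw [hvj, hzr, hzx, hA1]
    constructor
    · intro h'
      exact Or.inr ⟨hpok, hb, h'⟩
    · rintro (h' | ⟨_, _, h'⟩)
      · exact absurd h' hne
      · exact h'

end Pool.Agent.Helper22.ConsUniv
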