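import Mathlib
import Pool.Agent.Helper22.OracleTools

set_option autoImplicit false

/-!
# Tally sets in P

The tally oracle of a set of numbers; polynomial images of final segments, finite sets, unions.
-/

namespace Pool.Agent.Helper22

open Turing Function N487b59b3 N68a2faeb N793a5b8e

/-- `q` is the tally of a number in `S` -/
def IsTally (Q : List Bool → Bool) (S : Set ℕ) : Prop :=
  ∀ q, Q q = true ↔ q = un q.length ∧ q.length ∈ S

/-- the tally oracle of a set of numbers -/
noncomputable def tally (S : Set ℕ) : List Bool → Bool := by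
  classical exact fun q => decide (q = un q.length ∧ q.length ∈ S)

theorem tally_iff (S : Set ℕ) : IsTally (tally S) S := fun q => by
  classical
  simp only [tally, decide_eq_true_eq]

theorem IsTally.unique {Q Q' : List Bool → Bool} {S : Set ℕ} (h : IsTally Q S)
    (h' : IsTally Q' S) : Q = Q' := by
  funext q
  rw [Bool.eq_iff_iff, h q, h' q]

theorem IsTally.eq_tally {Q : List Bool → Bool} {S : Set ℕ} (h : IsTally Q S) : Q = tally S :=
  h.unique (tally_iff S)

theorem tally_empty : FP (tally ∅) := by
  have h : IsTally (fun _ => false) ∅ := fun q => by simp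
  rw [← h.eq_tally]
  exact FP.const _

theorem tally_union {S T : Set ℕ} (hS : FP (tally S)) (hT : FP (tally T)) :
    FP (tally (S ∪ T)) := by
  have h : IsTally (fun q => tally S q || tally T q) (S ∪ T) := fun q => by
    simp only [Bool.or_eq_true, tally_iff S q, tally_iff T q, Set.mem_union]
    tauto
  rw [← h.eq_tally]
  exact hS.or hT

theorem FP_isUn : FP fun q : List Bool => weq q (un q.length) := by fun_prop

theorem tally_singleton (n : ℕ) : FP (tally {n}) := by
  have h : IsTally (fun q => weq q (un q.length) && leneq q (un n)) {n} := fun q => by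
    simp only [Bool.and_eq_true, weq_iff, leneq_iff, un_length, Set.mem_singleton_iff]
  rw [← h.eq_tally]
  exact FP_isUn.and (by fun_prop)

theorem tally_finite {S : Set ℕ} (hS : S.Finite) : FP (tally S) := by
  induction S, hS using Set.Finite.induction_on with
  | empty => exact tally_empty
  | insert _ _ ih =>
    rw [Set.insert_eq]
    exact tally_union (tally_singleton _) ih

theorem tally_biUnion {ι : Type} {I : Set ι} (hI : I.Finite) {S : ι → Set ℕ}
    (hS : ∀ i ∈ I, FP (tally (S i))) : FP (tally (⋃ i ∈ I, S i)) := by
  induction I, hI using Set.Finite.induction_on with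
  | empty => simpa using tally_empty
  | @insert a I _ _ ih =>
    rw [Set.biUnion_insert]
    exact tally_union (hS a (Set.mem_insert _ _))
      (ih fun i hi => hS i (Set.mem_insert_of_mem _ hi))

/-- one step of the search: `(q, (n, found))` -/
def patStep (p : Polynomial ℕ) (l : ℕ) (s : List Bool × (List Bool × Bool)) :
    List Bool × (List Bool × Bool) :=
  (s.1, (true :: s.2.1, s.2.2 || (leneq s.1 (un (p.eval s.2.1.length)) &&
    decide ((un l).length ≤ s.2.1.length))))

theorem patStep_iter (p : Polynomial ℕ) (l : ℕ) (q : List Bool) (n : ℕ) :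
    ((patStep p l)^[n] (q, ([], false))).1 = q ∧
    ((patStep p l)^[n] (q, ([], false))).2.1.length = n ∧
    (((patStep p l)^[n] (q, ([], false))).2.2 = true ↔
      ∃ m < n, l ≤ m ∧ q.length = p.eval m) := by
  induction n with
  | zero => simp
  | succ n ih =>
    rw [Function.iterate_succ_apply']
    obtain ⟨h1, h2, h3⟩ := ih
    refine ⟨h1, by simp [patStep, h2], ?_⟩
    simp only [patStep, Bool.or_eq_true, h3, Bool.and_eq_true, leneq_iff, un_length, h1, h2,
      decide_eq_true_eq]
    constructor
    · rintro (⟨m, hm, h⟩ | ⟨h, h'⟩)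
      · exact ⟨m, by omega, h⟩
      · exact ⟨n, by omega, h', h⟩
    · rintro ⟨m, hm, h, h'⟩
      rcases Nat.lt_succ_iff_lt_or_eq.1 hm with h4 | rfl
      · exact Or.inl ⟨m, h4, h, h'⟩
      · exact Or.inr ⟨h', h⟩

theorem tally_poly (p : Polynomial ℕ) (hp : ∀ n, n ≤ p.eval n) (l : ℕ) :
    FP (tally ((fun n => p.eval n) '' Set.Ici l)) := by
  have h : FP fun c : List Bool × (List Bool × (List Bool × Bool)) =>
      (patStep p l)^[c.1.length] c.2 := by
    refine FP.iterate (f := patStep p l) ?_ (B := fun n => 8 * n + 8) (by fun_prop) ?_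
    · have h1 : FP fun s : List Bool × (List Bool × Bool) => un (p.eval s.2.1.length) :=
        FP.un_poly (by fun_prop) p
      unfold patStep
      fun_prop
    · intro c a i hi
      have h1 : ((patStep p l)^[i] a).1 = a.1 ∧
          ((patStep p l)^[i] a).2.1.length = i + a.2.1.length := by
        clear hi
        induction i with
        | zero => simp
        | succ i ih =>
          rw [Function.iterate_succ_apply']
          refine ⟨ih.1, ?_⟩
          simp only [patStep, List.length_cons, ih.2]; omega
      rcases hr : (patStep p l)^[i] a with ⟨x, y, z⟩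
      rw [hr] at h1
      obtain ⟨h1, h2⟩ := h1
      obtain ⟨a1, a2, a3⟩ := a
      simp only [sz_pair, sz_bits, sz_bool] at *
      subst h1
      omega
  have h1 : FP fun q : List Bool => (true :: q, (q, (([] : List Bool), false))) := by fun_prop
  have h2 := FP_isUn.and (h.comp h1).snd'.snd'
  have h3 : IsTally (fun q => weq q (un q.length) &&
      ((patStep p l)^[(true :: q).length] (q, ([], false))).2.2)
      ((fun n => p.eval n) '' Set.Ici l) := by
    intro q
    rw [Bool.and_eq_true, weq_iff, (patStep_iter p l q _).2.2]
    refine and_congr_right fun _ => ?_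
    simp only [List.length_cons, Set.mem_image, Set.mem_Ici]
    constructor
    · rintro ⟨m, _, h, h'⟩
      exact ⟨m, h, h'.symm⟩
    · rintro ⟨m, h, h'⟩
      refine ⟨m, ?_, h, h'.symm⟩
      have := hp m
      omega
  rw [← h3.eq_tally]
  exact h2

/-- The pattern lemma: finitely many columns, every column finite or a final segment. -/
theorem tally_pattern {ι : Type} {I : Set ι} (hI : I.Finite) (p : ι → Polynomial ℕ)
    (hp : ∀ i ∈ I, ∀ n, n ≤ (p i).eval n) (C : ι → Set ℕ)
    (hC : ∀ i ∈ I, (C i).Finite ∨ ∃ l, C i = Set.Ici l) :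
    FP (tally (⋃ i ∈ I, (fun n => (p i).eval n) '' C i)) := by
  refine tally_biUnion hI fun i hi => ?_
  rcases hC i hi with h | ⟨l, h⟩
  · exact tally_finite (h.image _)
  · rw [h]; exact tally_poly _ (hp i hi) l

end Pool.Agent.Helper22
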